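import Pool.Agent.R478.TriEC

/-!
# Primitive integer-edged triangles with a prescribed integer base/height ratio

If `k ≥ 1` occurs as the ratio base/height (or as the ratio height/base) of an integer-edged
triangle, it occurs as this ratio in infinitely many primitive integer-edged triangles.

The triangles with ratio `base / height = g / d` correspond to the rational points of the curve
`Y² = X ((X + d²)² + g² X)`; for `d = 1` or `g = 1` the points which come from triangles are shown to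
have infinite order: the double `(r², ·)` of such a point, or its translate by `(0, 0)`, or the
double of the double is not integral (apart from the denominator 9).
-/

set_option autoImplicit false

namespace Pool.Agent.Results.MP_ebd346_nt.InfinitelyManyOrNone

/-- There is a plane triangle with edges of lengths `s`, `u`, `v` whose altitude on the edge of
length `s` has length `h`. (A triangle can be placed with this edge between `(0, 0)` and `(s, 0)` and
the opposite vertex at `(x, h)` with `h > 0`; so it is not degenerate.) -/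
def HasAltitude (s u v : ℕ) (h : ℝ) : Prop :=
  0 < s ∧ 0 < h ∧ ∃ x : ℝ, x ^ 2 + h ^ 2 = (u : ℝ) ^ 2 ∧ (x - s) ^ 2 + h ^ 2 = (v : ℝ) ^ 2

/-- The integer-edged triangles (given by the multisets of their edge lengths, that is, up to
congruence) in which `k` occurs as the ratio base/height for some choice of the base. -/
def BaseHeight (k : ℕ) : Set (Multiset ℕ) :=
  {T | ∃ (s u v : ℕ) (h : ℝ), T = {s, u, v} ∧ HasAltitude s u v h ∧ (s : ℝ) / h = k}

/-- The integer-edged triangles in which `k` occurs as the ratio height/base for some choice of the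
base. -/
def HeightBase (k : ℕ) : Set (Multiset ℕ) :=
  {T | ∃ (s u v : ℕ) (h : ℝ), T = {s, u, v} ∧ HasAltitude s u v h ∧ h / (s : ℝ) = k}

/-- The greatest common divisor of the edge lengths is `1`. -/
def Primitive (T : Multiset ℕ) : Prop := ∀ d : ℕ, (∀ a ∈ T, d ∣ a) → d = 1

/-- positive rational numbers are proportional to coprime natural numbers -/
theorem scale (a b c : ℚ) (ha : 0 < a) (hb : 0 < b) (hc : 0 < c) :
    ∃ (s u v : ℕ) (l : ℚ), 0 < l ∧ 0 < s ∧ (s : ℚ) = l * a ∧ (u : ℚ) = l * b ∧ (v : ℚ) = l * c ∧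
      ∀ d : ℕ, d ∣ s → d ∣ u → d ∣ v → d = 1 := by
  -- a common denominator
  obtain ⟨A, B, C, N, hA, hN, eA, eB, eC⟩ : ∃ A B C N : ℕ, 0 < A ∧ 0 < N ∧ (A : ℚ) = N * a ∧
      (B : ℚ) = N * b ∧ (C : ℚ) = N * c := by
    have na : (0 : ℤ) < a.num := Rat.num_pos.2 ha
    have nb : (0 : ℤ) < b.num := Rat.num_pos.2 hb
    have nc : (0 : ℤ) < c.num := Rat.num_pos.2 hc
    have ea : ((a.num.natAbs : ℕ) : ℚ) = a.num := by
      rw [Nat.cast_natAbs, abs_of_pos na]
    have eb : ((b.num.natAbs : ℕ) : ℚ) = b.num := by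
      rw [Nat.cast_natAbs, abs_of_pos nb]
    have ec : ((c.num.natAbs : ℕ) : ℚ) = c.num := by
      rw [Nat.cast_natAbs, abs_of_pos nc]
    have da : (a.den : ℚ) ≠ 0 := by exact_mod_cast a.den_nz
    have db : (b.den : ℚ) ≠ 0 := by exact_mod_cast b.den_nz
    have dc : (c.den : ℚ) ≠ 0 := by exact_mod_cast c.den_nz
    have qa := Rat.num_div_den a
    have qb := Rat.num_div_den b
    have qc := Rat.num_div_den c
    have pa := a.pos
    have pb := b.pos
    have pc := c.pos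
    have ha' : 0 < a.num.natAbs := by omega
    refine ⟨a.num.natAbs * (b.den * c.den), b.num.natAbs * (a.den * c.den),
      c.num.natAbs * (a.den * b.den), a.den * b.den * c.den, by positivity, by positivity, ?_, ?_, ?_⟩
    · push_cast
      rw [ea, ← Rat.mul_den_eq_num a]
      ring
    · push_cast
      rw [eb, ← Rat.mul_den_eq_num b]
      ring
    · push_cast
      rw [ec, ← Rat.mul_den_eq_num c]
      ring
  set G := Nat.gcd A (Nat.gcd B C) with hG
  have hG0 : 0 < G := Nat.gcd_pos_of_pos_left _ hA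
  have hGA : G ∣ A := Nat.gcd_dvd_left _ _
  have hGB : G ∣ B := (Nat.gcd_dvd_right _ _).trans (Nat.gcd_dvd_left _ _)
  have hGC : G ∣ C := (Nat.gcd_dvd_right _ _).trans (Nat.gcd_dvd_right _ _)
  obtain ⟨s, hs⟩ := hGA
  obtain ⟨u, hu⟩ := hGB
  obtain ⟨v, hv⟩ := hGC
  have hGq : (G : ℚ) ≠ 0 := by exact_mod_cast hG0.ne'
  have hNq : (0 : ℚ) < N := by exact_mod_cast hN
  refine ⟨s, u, v, N / G, by positivity, ?_, ?_, ?_, ?_, ?_⟩
  · rcases Nat.eq_zero_or_pos s with h0 | h0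
    · rw [h0, mul_zero] at hs; omega
    · exact h0
  · have : (A : ℚ) = G * s := by rw [hs]; push_cast; ring
    field_simp
    linear_combination eA - this
  · have : (B : ℚ) = G * u := by rw [hu]; push_cast; ring
    field_simp
    linear_combination eB - this
  · have : (C : ℚ) = G * v := by rw [hv]; push_cast; ring
    field_simp
    linear_combination eC - this
  · intro d h1 h2 h3
    have h4 : G * d ∣ A := by rw [hs]; exact Nat.mul_dvd_mul_left _ h1
    have h5 : G * d ∣ B := by rw [hu]; exact Nat.mul_dvd_mul_left _ h2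
    have h6 : G * d ∣ C := by rw [hv]; exact Nat.mul_dvd_mul_left _ h3
    have h7 : G * d ∣ G := Nat.dvd_gcd h4 (Nat.dvd_gcd h5 h6)
    have h8 : G * d ∣ G * 1 := by rwa [mul_one]
    exact Nat.dvd_one.1 (Nat.dvd_of_mul_dvd_mul_left hG0 h8)

section

variable (g d : ℕ)

/-- the pairs of the cotangents of half the base angles, up to the sign of the cosines -/
def M' : Set (ℚ × ℚ) :=
  {z | z.1 ≠ 0 ∧ z.2 ≠ 0 ∧ (d : ℚ) * (z.1 - 1 / z.1 + (z.2 - 1 / z.2)) = 2 * g}

/-- the positive ones -/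
def M : Set (ℚ × ℚ) :=
  {z | 0 < z.1 ∧ 0 < z.2 ∧ (d : ℚ) * (z.1 - 1 / z.1 + (z.2 - 1 / z.2)) = 2 * g}

variable {g d}

theorem step1 (hg : 0 < g) (hd : 0 < d) {s u v : ℕ} {h : ℝ} (hT : HasAltitude s u v h)
    (hr : (s : ℝ) * d = g * h) : ∃ X Y : ℚ,
      Y ^ 2 = X * ((X + (d : ℚ) ^ 2) ^ 2 + (g : ℚ) ^ 2 * X) ∧ X ≠ 0 ∧ X ≠ -(d : ℚ) ^ 2 := by
  obtain ⟨hs, hh, x, e1, e2⟩ := hT
  have hgq : (0 : ℚ) < g := by exact_mod_cast hg
  have hdq : (0 : ℚ) < d := by exact_mod_cast hd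
  have hsq : (0 : ℚ) < s := by exact_mod_cast hs
  have hgr : (0 : ℝ) < g := by exact_mod_cast hg
  have hsr : (0 : ℝ) < s := by exact_mod_cast hs
  set hq : ℚ := s * d / g with hhq
  set xq : ℚ := ((u : ℚ) ^ 2 - v ^ 2 + s ^ 2) / (2 * s) with hxq
  have hhr : ((hq : ℚ) : ℝ) = h := by
    rw [hhq]; push_cast
    rw [hr]; field_simp
  have hxr : ((xq : ℚ) : ℝ) = x := by
    rw [hxq]; push_cast
    rw [← e1, ← e2]; field_simp; ring
  have hhq0 : 0 < hq := by rw [hhq]; positivity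
  have f1 : xq ^ 2 + hq ^ 2 = (u : ℚ) ^ 2 := by
    have : ((xq ^ 2 + hq ^ 2 : ℚ) : ℝ) = (((u : ℚ) ^ 2 : ℚ) : ℝ) := by
      push_cast; rw [hhr, hxr]; exact e1
    exact_mod_cast this
  have f2 : (xq - s) ^ 2 + hq ^ 2 = (v : ℚ) ^ 2 := by
    have : (((xq - s) ^ 2 + hq ^ 2 : ℚ) : ℝ) = (((v : ℚ) ^ 2 : ℚ) : ℝ) := by
      push_cast; rw [hhr, hxr]; exact e2
    exact_mod_cast this
  have hrq : (s : ℚ) * d = g * hq := by rw [hhq]; field_simp
  clear_value hq xq
  have g1 : ((u : ℚ) + xq) * (u - xq) = hq ^ 2 := by linear_combination -f1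
  have g2 : ((v : ℚ) + (s - xq)) * (v - (s - xq)) = hq ^ 2 := by linear_combination -f2
  have hh2 : hq ^ 2 ≠ 0 := pow_ne_zero _ hhq0.ne'
  obtain ⟨m, hm⟩ : ∃ m, m = ((u : ℚ) + xq) / hq := ⟨_, rfl⟩
  obtain ⟨n, hn⟩ : ∃ n, n = ((v : ℚ) + (s - xq)) / hq := ⟨_, rfl⟩
  have hm0 : m ≠ 0 := by
    rw [hm]
    exact div_ne_zero (fun h0 => hh2 (by rw [← g1, h0, zero_mul])) hhq0.ne'
  have hn0 : n ≠ 0 := by
    rw [hn]
    exact div_ne_zero (fun h0 => hh2 (by rw [← g2, h0, zero_mul])) hhq0.ne'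
  -- the relation
  have m1 : m * ((u - xq) / hq) = 1 := by rw [hm]; field_simp; linear_combination g1
  have n1 : n * ((v - (s - xq)) / hq) = 1 := by rw [hn]; field_simp; linear_combination g2
  have hrel : (d : ℚ) * (m + n) * (m * n - 1) = 2 * g * (m * n) := by
    have k1 : m - (u - xq) / hq = 2 * xq / hq := by rw [hm]; ring
    have k2 : n - (v - (s - xq)) / hq = 2 * (s - xq) / hq := by rw [hn]; ring
    have k3 : (d : ℚ) * (m - (u - xq) / hq + (n - (v - (s - xq)) / hq)) = 2 * g := by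
      rw [k1, k2]; field_simp; linear_combination hrq
    generalize (u - xq) / hq = m' at m1 k3
    generalize (v - (s - xq)) / hq = n' at n1 k3
    linear_combination (m * n) * k3 + (d * n) * m1 + (d * m) * n1
  have hp1 : m * n ≠ 1 := by
    intro h0
    rw [h0] at hrel
    have : (g : ℚ) = 0 := by linarith
    exact hgq.ne' this
  refine ⟨-(d : ℚ) ^ 2 * (m * n), (d : ℚ) ^ 3 * ((m - n) * (m * n - 1)) / 2, ?_, ?_, ?_⟩
  · linear_combination ((d : ℚ) ^ 4 / 4) *
      ((d : ℚ) * (m + n) * (m * n - 1) + 2 * g * (m * n)) * hrel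
  · have := mul_ne_zero hm0 hn0
    have h3 : (d : ℚ) ^ 2 ≠ 0 := by positivity
    exact mul_ne_zero (neg_ne_zero.2 h3) this
  · intro h0
    apply hp1
    have h3 : (d : ℚ) ^ 2 ≠ 0 := by positivity
    have : (d : ℚ) ^ 2 * (m * n) = (d : ℚ) ^ 2 * 1 := by linear_combination -h0
    exact mul_left_cancel₀ h3 this

theorem step2 (hg : 0 < g) (hd : 0 < d)
    (h : {z : ℚ × ℚ | z.2 ^ 2 = z.1 * ((z.1 + (d : ℚ) ^ 2) ^ 2 + (g : ℚ) ^ 2 * z.1)}.Infinite) :
    (M' g d).Infinite := by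
  have hgq : (0 : ℚ) < g := by exact_mod_cast hg
  have hdq : (0 : ℚ) < d := by exact_mod_cast hd
  have hd2 : (d : ℚ) ^ 2 ≠ 0 := by positivity
  intro hfin
  apply h
  have hfin2 := (hfin.image (fun z : ℚ × ℚ => ((-(d : ℚ) ^ 2 * (z.1 * z.2),
    (d : ℚ) ^ 3 * ((z.1 - z.2) * (z.1 * z.2 - 1)) / 2) : ℚ × ℚ)))
  refine ((hfin2.insert (0, 0)).insert (-(d : ℚ) ^ 2, (d : ℚ) ^ 2 * g) |>.insert
    (-(d : ℚ) ^ 2, -((d : ℚ) ^ 2 * g))).subset ?_
  rintro ⟨X, Y⟩ hz
  simp only [Set.mem_ofPred_eq] at hz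
  by_cases hX0 : X = 0
  · subst hX0
    have : Y = 0 := by
      have : Y ^ 2 = 0 := by rw [hz]; ring
      exact pow_eq_zero_iff two_ne_zero |>.1 this
    subst this
    simp
  by_cases hX1 : X = -(d : ℚ) ^ 2
  · subst hX1
    have h1 : Y ^ 2 = ((d : ℚ) ^ 2 * g) ^ 2 := by rw [hz]; ring
    rcases sq_eq_sq_iff_eq_or_eq_neg.1 h1 with h2 | h2
    · simp [h2]
    · simp [h2]
  refine Set.mem_insert_of_mem _ (Set.mem_insert_of_mem _ (Set.mem_insert_of_mem _ ?_))
  obtain ⟨p, hp⟩ : ∃ p : ℚ, X = -(d : ℚ) ^ 2 * p := ⟨-X / (d : ℚ) ^ 2, by field_simp⟩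
  obtain ⟨y, hy⟩ : ∃ y : ℚ, Y = (d : ℚ) ^ 2 * y := ⟨Y / (d : ℚ) ^ 2, by field_simp⟩
  subst hp hy
  have hp0 : p ≠ 0 := by rintro rfl; exact hX0 (by ring)
  have hp1 : p - 1 ≠ 0 := by
    intro h0
    exact hX1 (by rw [show p = 1 by linarith]; ring)
  have hz' : y ^ 2 = (g : ℚ) ^ 2 * p ^ 2 - (d : ℚ) ^ 2 * p * (p - 1) ^ 2 := by
    have h3 : (d : ℚ) ^ 4 ≠ 0 := by positivity
    apply mul_left_cancel₀ h3
    linear_combination hz
  obtain ⟨m, hm⟩ : ∃ m, m = (g * p + y) / (d * (p - 1)) := ⟨_, rfl⟩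
  obtain ⟨n, hn⟩ : ∃ n, n = (g * p - y) / (d * (p - 1)) := ⟨_, rfl⟩
  have hmn : m * n = p := by
    rw [hm, hn]; field_simp; linear_combination -hz'
  have hs : (d : ℚ) * (m + n) * (p - 1) = 2 * g * p := by
    rw [hm, hn]; field_simp; ring
  have hdf : (d : ℚ) * (m - n) * (p - 1) = 2 * y := by
    rw [hm, hn]; field_simp; ring
  have hm0 : m ≠ 0 := by rintro rfl; exact hp0 (by rw [← hmn]; ring)
  have hn0 : n ≠ 0 := by rintro rfl; exact hp0 (by rw [← hmn]; ring)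
  refine ⟨(m, n), ⟨hm0, hn0, ?_⟩, ?_⟩
  · simp only
    rw [← hmn] at hs
    field_simp
    linear_combination hs
  · simp only [Prod.mk.injEq]
    rw [hmn]
    exact ⟨rfl, by linear_combination ((d : ℚ) ^ 2 / 2) * hdf⟩

theorem step3 (h : (M' g d).Infinite) : (M g d).Infinite := by
  intro hfin
  apply h
  have f1 := hfin.image (fun z : ℚ × ℚ => ((-1 / z.1, z.2) : ℚ × ℚ))
  have f2 := hfin.image (fun z : ℚ × ℚ => ((z.1, -1 / z.2) : ℚ × ℚ))
  have f3 := hfin.image (fun z : ℚ × ℚ => ((-1 / z.1, -1 / z.2) : ℚ × ℚ))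
  refine (((hfin.union f1).union f2).union f3).subset ?_
  rintro ⟨m, n⟩ ⟨hm, hn, e⟩
  simp only at hm hn e
  have inv : ∀ q : ℚ, q ≠ 0 → (-1 / q) - 1 / (-1 / q) = q - 1 / q := by
    intro q hq; field_simp; ring
  have inv2 : ∀ q : ℚ, q ≠ 0 → -1 / (-1 / q) = q := by
    intro q hq; field_simp
  have pos : ∀ q : ℚ, q < 0 → 0 < -1 / q := fun q hq => div_pos_of_neg_of_neg (by norm_num) hq
  rcases lt_or_gt_of_ne hm with h1 | h1 <;> rcases lt_or_gt_of_ne hn with h2 | h2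
  · exact Or.inr ⟨(-1 / m, -1 / n), ⟨pos m h1, pos n h2, by
      simp only; rw [inv m hm, inv n hn]; exact e⟩, by simp only [inv2 m hm, inv2 n hn]⟩
  · exact Or.inl (Or.inl (Or.inr ⟨(-1 / m, n), ⟨pos m h1, h2, by
      simp only; rw [inv m hm]; exact e⟩, by simp only [inv2 m hm]⟩))
  · exact Or.inl (Or.inr ⟨(m, -1 / n), ⟨h1, pos n h2, by
      simp only; rw [inv n hn]; exact e⟩, by simp only [inv2 n hn]⟩)
  · exact Or.inl (Or.inl (Or.inl ⟨h1, h2, e⟩))

theorem step4 (hg : 0 < g) (hd : 0 < d) (h : (M g d).Infinite) :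
    {T : Multiset ℕ | Primitive T ∧ ∃ (s u v : ℕ) (h : ℝ), T = {s, u, v} ∧ HasAltitude s u v h ∧
      (s : ℝ) * d = g * h}.Infinite := by
  have hgq : (0 : ℚ) < g := by exact_mod_cast hg
  have hdq : (0 : ℚ) < d := by exact_mod_cast hd
  intro hfin
  apply h
  -- the numbers in the finitely many triangles
  set F : Set ℕ := ⋃ T ∈ {T : Multiset ℕ | Primitive T ∧ ∃ (s u v : ℕ) (h : ℝ),
    T = {s, u, v} ∧ HasAltitude s u v h ∧ (s : ℝ) * d = g * h}, {a : ℕ | a ∈ T} with hF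
  have hFf : F.Finite := by
    rw [hF]
    refine Set.Finite.biUnion hfin fun T _ => ?_
    exact (Multiset.finite_toSet T)
  have hF3 : ((F ×ˢ (F ×ˢ F)) : Set (ℕ × ℕ × ℕ)).Finite := hFf.prod (hFf.prod hFf)
  refine (hF3.image (fun t : ℕ × ℕ × ℕ =>
    (((t.2.1 + ((t.2.1 : ℚ) ^ 2 - t.2.2 ^ 2 + t.1 ^ 2) / (2 * t.1)) / (t.1 * d / g),
      (t.2.2 + (t.1 - ((t.2.1 : ℚ) ^ 2 - t.2.2 ^ 2 + t.1 ^ 2) / (2 * t.1))) / (t.1 * d / g)) :
        ℚ × ℚ))).subset ?_
  rintro ⟨m, n⟩ ⟨hm, hn, e⟩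
  simp only at hm hn e
  obtain ⟨s, u, v, l, hl, hs, es, eu, ev, hgcd⟩ := scale (g / d) ((m + 1 / m) / 2)
    ((n + 1 / n) / 2) (by positivity) (by positivity) (by positivity)
  have hsum : (g : ℚ) / d = (m - 1 / m) / 2 + (n - 1 / n) / 2 := by
    field_simp
    field_simp at e
    linear_combination -e
  have hT : ({s, u, v} : Multiset ℕ) ∈ {T : Multiset ℕ | Primitive T ∧ ∃ (s u v : ℕ) (h : ℝ),
      T = {s, u, v} ∧ HasAltitude s u v h ∧ (s : ℝ) * d = g * h} := by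
    refine ⟨fun c hc => hgcd c (hc s (by simp)) (hc u (by simp)) (hc v (by simp)),
      s, u, v, (l : ℝ), rfl, ⟨hs, by exact_mod_cast hl, ((l * ((m - 1 / m) / 2) : ℚ) : ℝ), ?_, ?_⟩,
      ?_⟩
    · have : (l * ((m - 1 / m) / 2)) ^ 2 + l ^ 2 = (u : ℚ) ^ 2 := by
        rw [eu]; field_simp; ring
      exact_mod_cast this
    · have h1 : l * ((m - 1 / m) / 2) - s = -(l * ((n - 1 / n) / 2)) := by
        rw [es, hsum]; ring
      have : (l * ((m - 1 / m) / 2) - s) ^ 2 + l ^ 2 = (v : ℚ) ^ 2 := by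
        rw [h1, ev]; field_simp; ring
      exact_mod_cast this
    · have : (s : ℚ) * d = g * l := by rw [es]; field_simp
      exact_mod_cast this
  have hin : ∀ a : ℕ, a ∈ ({s, u, v} : Multiset ℕ) → a ∈ F := by
    intro a ha
    rw [hF]
    exact Set.mem_biUnion hT ha
  refine ⟨(s, u, v), ⟨hin s (by simp), hin u (by simp), hin v (by simp)⟩, ?_⟩
  have hsq : (0 : ℚ) < s := by exact_mod_cast hs
  have hh : (s : ℚ) * d / g = l := by rw [es]; field_simp
  have hx : ((u : ℚ) ^ 2 - v ^ 2 + s ^ 2) / (2 * s) = l * ((m - 1 / m) / 2) := by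
    rw [div_eq_iff (by positivity)]
    have h1 : (l * ((m - 1 / m) / 2)) ^ 2 + l ^ 2 = (u : ℚ) ^ 2 := by
      rw [eu]; field_simp; ring
    have h2 : (l * ((m - 1 / m) / 2) - s) ^ 2 + l ^ 2 = (v : ℚ) ^ 2 := by
      have h1 : l * ((m - 1 / m) / 2) - s = -(l * ((n - 1 / n) / 2)) := by
        rw [es, hsum]; ring
      rw [h1, ev]; field_simp; ring
    linear_combination h2 - h1
  simp only [Prod.mk.injEq]
  rw [hx, hh]
  constructor
  · rw [eu]; field_simp; ring
  · rw [ev, es, hsum]; field_simp; ring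

theorem main (hg : 0 < g) (hd : 0 < d) (hgd : d = 1 ∨ g = 1)
    (h : ∃ (s u v : ℕ) (h : ℝ), HasAltitude s u v h ∧ (s : ℝ) * d = g * h) :
    {T : Multiset ℕ | Primitive T ∧ ∃ (s u v : ℕ) (h : ℝ), T = {s, u, v} ∧ HasAltitude s u v h ∧
      (s : ℝ) * d = g * h}.Infinite := by
  obtain ⟨s, u, v, h, hT, hr⟩ := h
  obtain ⟨X, Y, e, hX, hX2⟩ := step1 hg hd hT hr
  exact step4 hg hd (step3 (step2 hg hd (Pool.Agent.R478.TriEC.inf_points g d hg hd hgd X Y e hX hX2)))

end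

/-- If `k ≥ 1` occurs as the ratio base/height of an integer-edged triangle, it occurs as this ratio
in infinitely many primitive integer-edged triangles, and the same holds for the ratio
height/base. -/
theorem result (k : ℕ) (hk : 0 < k) :
    ((BaseHeight k).Nonempty → {T | T ∈ BaseHeight k ∧ Primitive T}.Infinite) ∧
      ((HeightBase k).Nonempty → {T | T ∈ HeightBase k ∧ Primitive T}.Infinite) := by
  constructor
  · rintro ⟨T, s, u, v, h, -, hT, hr⟩
    have h1 := main (g := k) (d := 1) hk one_pos (Or.inl rfl) ⟨s, u, v, h, hT, by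
      have := hT.2.1
      field_simp at hr
      push_cast
      linarith⟩
    refine h1.mono ?_
    rintro T ⟨hp, s, u, v, h, rfl, hT, hr⟩
    refine ⟨⟨s, u, v, h, rfl, hT, ?_⟩, hp⟩
    have := hT.2.1
    push_cast at hr
    rw [div_eq_iff this.ne']
    linarith
  · rintro ⟨T, s, u, v, h, -, hT, hr⟩
    have h1 := main (g := 1) (d := k) one_pos hk (Or.inr rfl) ⟨s, u, v, h, hT, by
      have h2 : (0 : ℝ) < s := by exact_mod_cast hT.1
      field_simp at hr
      push_cast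
      linarith⟩
    refine h1.mono ?_
    rintro T ⟨hp, s, u, v, h, rfl, hT, hr⟩
    refine ⟨⟨s, u, v, h, rfl, hT, ?_⟩, hp⟩
    have h2 : (0 : ℝ) < s := by exact_mod_cast hT.1
    push_cast at hr
    rw [div_eq_iff h2.ne']
    linarith

end Pool.Agent.Results.MP_ebd346_nt.InfinitelyManyOrNone
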